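import Pool.Agent.Q218.HB.Stm

set_option autoImplicit false

/-!
# The mean over the circle (job HB-AVG of helper218)
-/

namespace Pool.Agent.Q224.HB

open MeasureTheory Set
open Pool.Agent.Q218.HB

/-- `1/(1 + (x/A)²)` -/
noncomputable def ph (A x : ℝ) : ℝ := 1 / (1 + (x / A) ^ 2)

lemma ph_nonneg (A x : ℝ) : 0 ≤ ph A x := by unfold ph; positivity

lemma ph_le_one (A x : ℝ) : ph A x ≤ 1 := by
  unfold ph
  rw [div_le_one (by positivity)]
  nlinarith [sq_nonneg (x / A)]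

lemma ph_anti {A x y : ℝ} (hA : 0 < A) (hx : 0 ≤ x) (h : x ≤ |y|) : ph A y ≤ ph A x := by
  unfold ph
  apply one_div_le_one_div_of_le (by positivity)
  have h1 : (x / A) ^ 2 ≤ (y / A) ^ 2 := by
    rw [sq_le_sq, abs_div, abs_div, abs_of_pos hA, abs_of_nonneg hx]
    exact div_le_div_of_nonneg_right h hA.le
  linarith

lemma int_ph (A : ℝ) (hA : 0 < A) (M : ℕ) : ∫ x in (0 : ℝ)..(0 + (M : ℝ)), ph A x ≤ A * (Real.pi / 2) := by
  have h1 : ∫ x in (0 : ℝ)..(0 + (M : ℝ)), ph A x = ∫ x in (0 : ℝ)..(0 + (M : ℝ)),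
      (fun y : ℝ => 1 / (1 + y ^ 2)) (x / A) := rfl
  rw [h1, intervalIntegral.integral_comp_div (fun y : ℝ => 1 / (1 + y ^ 2)) hA.ne', integral_one_div_one_add_sq, zero_div, Real.arctan_zero,
    sub_zero, smul_eq_mul]
  exact mul_le_mul_of_nonneg_left (Real.arctan_lt_pi_div_two _).le hA.le

lemma sum_ph (A : ℝ) (hA : 0 < A) (M : ℕ) :
    ∑ i ∈ Finset.range (M + 1), ph A (i : ℝ) ≤ 1 + A * (Real.pi / 2) := by
  rw [Finset.sum_range_succ']
  have h1 := AntitoneOn.sum_le_integral (x₀ := 0) (a := M) (f := ph A) (by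
    intro x hx y hy hxy
    exact ph_anti hA hx.1 (hxy.trans (le_abs_self y)))
  simp only [zero_add] at h1
  have h2 := int_ph A hA M
  rw [zero_add] at h2
  have h3 := ph_le_one A ((0 : ℕ) : ℝ)
  calc _ ≤ (∫ x in (0 : ℝ)..(M : ℝ), ph A x) + 1 := add_le_add h1 h3
    _ ≤ _ := by linarith

lemma half_sum (A : ℝ) (hA : 0 < A) (s : Finset ℕ) (q : ℕ → ℝ) (hq : ∀ j ∈ s, 0 ≤ q j)
    (hinj : ∀ j ∈ s, ∀ k ∈ s, ⌊q j⌋₊ = ⌊q k⌋₊ → j = k) :
    ∑ j ∈ s, ph A (q j) ≤ 1 + A * (Real.pi / 2) := by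
  have h1 : ∑ j ∈ s, ph A (q j) ≤ ∑ j ∈ s, ph A ((⌊q j⌋₊ : ℕ) : ℝ) := by
    apply Finset.sum_le_sum
    intro j hj
    exact ph_anti hA (Nat.cast_nonneg _) ((Nat.floor_le (hq j hj)).trans (le_abs_self _))
  have h2 : ∑ j ∈ s, ph A ((⌊q j⌋₊ : ℕ) : ℝ) = ∑ i ∈ s.image (fun j => ⌊q j⌋₊), ph A (i : ℝ) := by
    rw [Finset.sum_image]
    intro j hj k hk h
    exact hinj j hj k hk h
  obtain ⟨M, hM⟩ : ∃ M : ℕ, s.image (fun j => ⌊q j⌋₊) ⊆ Finset.range (M + 1) := by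
    refine ⟨(s.image (fun j => ⌊q j⌋₊)).sup id, fun i hi => ?_⟩
    rw [Finset.mem_range, Nat.lt_succ_iff]
    exact Finset.le_sup (f := id) hi
  have h3 : ∑ i ∈ s.image (fun j => ⌊q j⌋₊), ph A (i : ℝ) ≤ ∑ i ∈ Finset.range (M + 1), ph A (i : ℝ) :=
    Finset.sum_le_sum_of_subset_of_nonneg hM fun i _ _ => ph_nonneg _ _
  linarith [sum_ph A hA M]

lemma full_sum (A : ℝ) (hA : 0 < A) (N : ℕ) (c : ℝ) :
    ∑ j ∈ Finset.range N, ph A ((j : ℝ) - c) ≤ 2 + A * Real.pi := by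
  rw [← Finset.sum_filter_add_sum_filter_not (Finset.range N) (fun j : ℕ => c ≤ (j : ℝ))]
  have h1 := half_sum A hA ((Finset.range N).filter (fun j : ℕ => c ≤ (j : ℝ))) (fun j => (j : ℝ) - c)
    (by
      intro j hj
      have := (Finset.mem_filter.1 hj).2
      linarith)
    (by
      intro j hj k hk h
      have hj' := (Finset.mem_filter.1 hj).2
      have hk' := (Finset.mem_filter.1 hk).2
      have e1 := Nat.floor_le (by linarith : 0 ≤ (j : ℝ) - c)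
      have e2 := Nat.lt_floor_add_one ((j : ℝ) - c)
      have e3 := Nat.floor_le (by linarith : 0 ≤ (k : ℝ) - c)
      have e4 := Nat.lt_floor_add_one ((k : ℝ) - c)
      rw [h] at e1 e2
      have e5 : (j : ℝ) < k + 1 := by linarith
      have e6 : (k : ℝ) < j + 1 := by linarith
      have e7 : j < k + 1 := by exact_mod_cast e5
      have e8 : k < j + 1 := by exact_mod_cast e6
      omega)
  have h2 := half_sum A hA ((Finset.range N).filter (fun j : ℕ => ¬ c ≤ (j : ℝ))) (fun j => c - (j : ℝ))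
    (by
      intro j hj
      have := (Finset.mem_filter.1 hj).2
      linarith)
    (by
      intro j hj k hk h
      have hj' := (Finset.mem_filter.1 hj).2
      have hk' := (Finset.mem_filter.1 hk).2
      have e1 := Nat.floor_le (by linarith : 0 ≤ c - (j : ℝ))
      have e2 := Nat.lt_floor_add_one (c - (j : ℝ))
      have e3 := Nat.floor_le (by linarith : 0 ≤ c - (k : ℝ))
      have e4 := Nat.lt_floor_add_one (c - (k : ℝ))
      rw [h] at e1 e2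
      have e5 : (j : ℝ) < k + 1 := by linarith
      have e6 : (k : ℝ) < j + 1 := by linarith
      have e7 : j < k + 1 := by exact_mod_cast e5
      have e8 : k < j + 1 := by exact_mod_cast e6
      omega)
  have h3 : ∑ j ∈ (Finset.range N).filter (fun j : ℕ => ¬ c ≤ (j : ℝ)), ph A ((j : ℝ) - c) =
      ∑ j ∈ (Finset.range N).filter (fun j : ℕ => ¬ c ≤ (j : ℝ)), ph A (c - (j : ℝ)) := by
    apply Finset.sum_congr rfl
    intro j _
    unfold ph
    congr 2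
    rw [← neg_sub, neg_div, neg_sq]
  rw [h3]
  linarith

lemma sin_bound (ε y s : ℝ) (hε : 0 < ε) (hs : |s| = |Real.sin y|) (hy : |y| ≤ Real.pi / 2) :
    ε ^ 2 / (4 * s ^ 2 + ε ^ 2) ≤ 1 / (1 + (4 * y / (Real.pi * ε)) ^ 2) := by
  have h1 := Real.mul_abs_le_abs_sin hy
  have hpi := Real.pi_pos
  have h2 : (2 / Real.pi * y) ^ 2 ≤ s ^ 2 := by
    rw [sq_le_sq, hs, abs_mul, abs_of_pos (by positivity : 0 < 2 / Real.pi)]
    exact h1
  rw [div_le_div_iff₀ (by positivity) (by positivity), one_mul]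
  have h3 : ε ^ 2 * (1 + (4 * y / (Real.pi * ε)) ^ 2) = ε ^ 2 + 4 * (2 / Real.pi * y) ^ 2 := by
    field_simp
    ring
  rw [h3]
  linarith

/-- one term -/
lemma term_le (n j : ℕ) (hn : 0 < n) (hj : j < n) (ε : ℝ) (hε : 0 < ε) :
    ε ^ 2 / (4 * Real.sin (2 * Real.pi * (j : ℝ) / n) ^ 2 + ε ^ 2) ≤
      ph (n * ε / 8) ((j : ℝ) - 0) + ph (n * ε / 8) ((j : ℝ) - n / 2) + ph (n * ε / 8) ((j : ℝ) - n) := by
  have hn' : (0 : ℝ) < n := by exact_mod_cast hn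
  have hj' : (j : ℝ) < n := by exact_mod_cast hj
  have hj0 : (0 : ℝ) ≤ j := Nat.cast_nonneg j
  have hpi := Real.pi_pos
  have key : ∀ c : ℝ, |Real.sin (2 * Real.pi * (j : ℝ) / n)| = |Real.sin (2 * Real.pi / n * ((j : ℝ) - c))| →
      |(j : ℝ) - c| ≤ n / 4 →
      ε ^ 2 / (4 * Real.sin (2 * Real.pi * (j : ℝ) / n) ^ 2 + ε ^ 2) ≤ ph (n * ε / 8) ((j : ℝ) - c) := by
    intro c h1 h2
    have h3 : |2 * Real.pi / n * ((j : ℝ) - c)| ≤ Real.pi / 2 := by
      rw [abs_mul, abs_of_pos (by positivity : 0 < 2 * Real.pi / (n : ℝ))]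
      calc 2 * Real.pi / n * |(j : ℝ) - c| ≤ 2 * Real.pi / n * (n / 4) :=
            mul_le_mul_of_nonneg_left h2 (by positivity)
        _ = Real.pi / 2 := by field_simp; ring
    have h4 := sin_bound ε _ _ hε h1 h3
    refine h4.trans (le_of_eq ?_)
    unfold ph
    congr 3
    field_simp
    ring
  have p0 := ph_nonneg (n * ε / 8) ((j : ℝ) - 0)
  have p1 := ph_nonneg (n * ε / 8) ((j : ℝ) - n / 2)
  have p2 := ph_nonneg (n * ε / 8) ((j : ℝ) - n)
  rcases le_or_gt (j : ℝ) (n / 4) with h | h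
  · have := key 0 (by rw [sub_zero]; congr 2; ring) (by rw [sub_zero, abs_of_nonneg hj0]; exact h)
    linarith
  rcases le_or_gt (j : ℝ) (3 * n / 4) with h' | h'
  · have := key (n / 2) (by
      have e1 : 2 * Real.pi / n * ((j : ℝ) - n / 2) = 2 * Real.pi * (j : ℝ) / n - Real.pi := by
        field_simp
      rw [e1, Real.sin_sub_pi, abs_neg]) (by rw [abs_le]; constructor <;> linarith)
    linarith
  · have := key n (by
      have e1 : 2 * Real.pi / n * ((j : ℝ) - n) = 2 * Real.pi * (j : ℝ) / n - 2 * Real.pi := by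
        field_simp
      rw [e1, Real.sin_sub_two_pi]) (by rw [abs_le]; constructor <;> linarith)
    linarith

theorem avg : S_AVG := by
  intro ε hε hε1
  refine ⟨⌈8 / ε⌉₊, fun n _ hn => ?_⟩
  have hn0 : 0 < n := Nat.pos_of_ne_zero (NeZero.ne n)
  have hn' : (0 : ℝ) < n := by exact_mod_cast hn0
  have h8 : 8 ≤ ε * n := by
    have h1 : 8 / ε ≤ n := (Nat.le_ceil _).trans (by exact_mod_cast hn)
    rw [div_le_iff₀ hε] at h1
    linarith
  have hsum : ∑ j : ZMod n, (ε ^ 2 / (4 * Real.sin (2 * Real.pi * (j.val : ℝ) / n) ^ 2 + ε ^ 2)) ^ 2 =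
      ∑ j ∈ Finset.range n, (ε ^ 2 / (4 * Real.sin (2 * Real.pi * (j : ℝ) / n) ^ 2 + ε ^ 2)) ^ 2 := by
    obtain ⟨m, rfl⟩ : ∃ m, n = m + 1 := ⟨n - 1, by omega⟩
    exact Fin.sum_univ_eq_sum_range (fun j : ℕ =>
      (ε ^ 2 / (4 * Real.sin (2 * Real.pi * (j : ℝ) / ((m + 1 : ℕ) : ℝ)) ^ 2 + ε ^ 2)) ^ 2) (m + 1)
  rw [hsum]
  have hA : 0 < (n : ℝ) * ε / 8 := by positivity
  have h1 : ∑ j ∈ Finset.range n, (ε ^ 2 / (4 * Real.sin (2 * Real.pi * (j : ℝ) / n) ^ 2 + ε ^ 2)) ^ 2 ≤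
      ∑ j ∈ Finset.range n, (ph (n * ε / 8) ((j : ℝ) - 0) + ph (n * ε / 8) ((j : ℝ) - n / 2) +
        ph (n * ε / 8) ((j : ℝ) - n)) := by
    apply Finset.sum_le_sum
    intro j hj
    refine le_trans ?_ (term_le n j hn0 (Finset.mem_range.1 hj) ε hε)
    have h2 : 0 ≤ ε ^ 2 / (4 * Real.sin (2 * Real.pi * (j : ℝ) / n) ^ 2 + ε ^ 2) := by positivity
    have h3 : ε ^ 2 / (4 * Real.sin (2 * Real.pi * (j : ℝ) / n) ^ 2 + ε ^ 2) ≤ 1 := by
      rw [div_le_one (by positivity)]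
      nlinarith [sq_nonneg (Real.sin (2 * Real.pi * (j : ℝ) / n))]
    nlinarith
  rw [Finset.sum_add_distrib, Finset.sum_add_distrib] at h1
  have h2 := full_sum (n * ε / 8) hA n 0
  have h3 := full_sum (n * ε / 8) hA n (n / 2)
  have h4 := full_sum (n * ε / 8) hA n n
  have hpi := Real.pi_lt_d2
  rw [inv_mul_le_iff₀ hn']
  have h5 : (n : ℝ) * ε / 8 * Real.pi ≤ (n : ℝ) * ε / 8 * 3.15 := mul_le_mul_of_nonneg_left hpi.le hA.le
  nlinarith

end Pool.Agent.Q224.HB
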