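import Pool.Agent.Q218.HB.Stm

set_option autoImplicit false

/-!
# Orthonormal families of eigenfunctions (job HB-FAM of helper218)
-/

namespace Pool.Agent.Q224.HB

open Pool.Agent.Q218.HB

/-- Bessel's inequality for a matrix and an orthonormal family -/
lemma bessel {Λ : Type} [Fintype Λ] [DecidableEq Λ] (A : Matrix Λ Λ ℂ) (J : Type) [Fintype J] [DecidableEq J]
    (φ : J → Λ → ℂ) (hφ : ∀ j k, ∑ x, (starRingEnd ℂ) (φ j x) * φ k x = if j = k then 1 else 0) :
    ∑ j, ∑ x, ‖∑ y, A x y * φ j y‖ ^ 2 ≤ ∑ x, ∑ y, ‖A x y‖ ^ 2 := by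
  rw [Finset.sum_comm]
  apply Finset.sum_le_sum
  intro x _
  set v : J → EuclideanSpace ℂ Λ := fun j => WithLp.toLp 2 (φ j) with hv
  have hor : Orthonormal ℂ v := by
    rw [orthonormal_iff_ite]
    intro j k
    rw [← hφ j k]
    simp only [hv, PiLp.inner_apply, RCLike.inner_apply]
    apply Finset.sum_congr rfl
    intro y _
    ring
  set u : EuclideanSpace ℂ Λ := WithLp.toLp 2 (fun y => (starRingEnd ℂ) (A x y)) with hu
  have h1 := hor.sum_inner_products_le (x := u) (s := Finset.univ)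
  have h2 : ‖u‖ ^ 2 = ∑ y, ‖A x y‖ ^ 2 := by
    rw [EuclideanSpace.norm_sq_eq]
    apply Finset.sum_congr rfl
    intro y _
    simp [hu]
  rw [h2] at h1
  refine le_trans (le_of_eq ?_) h1
  apply Finset.sum_congr rfl
  intro j _
  congr 1
  have h3 : inner ℂ (v j) u = (starRingEnd ℂ) (∑ y, A x y * φ j y) := by
    simp only [hv, hu, PiLp.inner_apply, RCLike.inner_apply, map_sum, map_mul]
  rw [h3, RCLike.norm_conj]

lemma norm_add_sq_le (a b : ℂ) : ‖a + b‖ ^ 2 ≤ 2 * ‖a‖ ^ 2 + 2 * ‖b‖ ^ 2 := by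
  have h1 := norm_add_le a b
  have h2 := norm_nonneg (a + b)
  nlinarith [sq_nonneg (‖a‖ - ‖b‖), norm_nonneg a, norm_nonneg b]

lemma hop_symm {d n : ℕ} (x y : Tor d n) : hop x y = hop y x := by
  unfold hop
  congr 1
  apply Finset.sum_congr rfl
  intro i _
  rw [add_comm]
  congr 1
  · apply if_congr _ rfl rfl
    constructor
    · intro h; rw [h]; abel
    · intro h; rw [h]; abel
  · apply if_congr _ rfl rfl
    constructor
    · intro h; rw [h]; abel
    · intro h; rw [h]; abel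

theorem fam : S_FAM := by
  intro hInv hKon d n _ V E η hη J _ _ φ e hor heig he
  have hz : (pt E η).im = η := by simp [pt]
  have hz0 : (pt E η).im ≠ 0 := by rw [hz]; exact hη.ne'
  have hG := (hInv (Tor d n) hop V (pt E η) hop_symm hz0).2.1
  -- φ_j = (e_j - z) G φ_j
  have h1 : ∀ j, φ j = ((e j : ℂ) - pt E η) • (G hop V (pt E η)).mulVec (φ j) := by
    intro j
    have h2 : (Hm hop V - pt E η • (1 : Matrix (Tor d n) (Tor d n) ℂ)).mulVec (φ j) =
        ((e j : ℂ) - pt E η) • φ j := by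
      rw [Matrix.sub_mulVec, Matrix.smul_mulVec, Matrix.one_mulVec, sub_smul]
      congr 1
      ext x
      exact heig j x
    have h3 : (G hop V (pt E η) * (Hm hop V - pt E η • (1 : Matrix (Tor d n) (Tor d n) ℂ))).mulVec (φ j) =
        ((e j : ℂ) - pt E η) • (G hop V (pt E η)).mulVec (φ j) := by
      rw [← Matrix.mulVec_mulVec, h2, Matrix.mulVec_smul]
    rw [hG, Matrix.one_mulVec] at h3
    exact h3
  have hc : ∀ j, ‖(e j : ℂ) - pt E η‖ ^ 2 ≤ 2 * η ^ 2 := by
    intro j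
    rw [← Complex.normSq_eq_norm_sq, Complex.normSq_apply]
    have e1 : ((e j : ℂ) - pt E η).re = e j - E := by simp [pt]
    have e2 : ((e j : ℂ) - pt E η).im = -η := by simp [pt]
    rw [e1, e2]
    have h4 := abs_le.1 (he j)
    nlinarith [h4.1, h4.2]
  have hr : ∀ j x, φ j x - ((e j : ℂ) - pt E η) * ∑ y, G hop (fun _ => 0) (pt E η) x y * φ j y =
      ((e j : ℂ) - pt E η) * ∑ y, (G hop V (pt E η) x y - G hop (fun _ => 0) (pt E η) x y) * φ j y := by
    intro j x
    have h5 : φ j x = ((e j : ℂ) - pt E η) * ∑ y, G hop V (pt E η) x y * φ j y := by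
      have := congrFun (h1 j) x
      exact this
    have h6 : ∑ y, (G hop V (pt E η) x y - G hop (fun _ => 0) (pt E η) x y) * φ j y =
        (∑ y, G hop V (pt E η) x y * φ j y) - ∑ y, G hop (fun _ => 0) (pt E η) x y * φ j y := by
      rw [← Finset.sum_sub_distrib]
      apply Finset.sum_congr rfl
      intro y _
      ring
    rw [h6, mul_sub, ← h5]
  have hfam : ∀ A : Matrix (Tor d n) (Tor d n) ℂ,
      ∑ j, ∑ x, ‖((e j : ℂ) - pt E η) * ∑ y, A x y * φ j y‖ ^ 2 ≤ 2 * η ^ 2 * ∑ x, ∑ y, ‖A x y‖ ^ 2 := by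
    intro A
    have hb := bessel A J φ hor
    calc ∑ j, ∑ x, ‖((e j : ℂ) - pt E η) * ∑ y, A x y * φ j y‖ ^ 2
        ≤ ∑ j, ∑ x, 2 * η ^ 2 * ‖∑ y, A x y * φ j y‖ ^ 2 := by
          apply Finset.sum_le_sum
          intro j _
          apply Finset.sum_le_sum
          intro x _
          rw [norm_mul, mul_pow]
          exact mul_le_mul_of_nonneg_right (hc j) (by positivity)
      _ = 2 * η ^ 2 * ∑ j, ∑ x, ‖∑ y, A x y * φ j y‖ ^ 2 := by
          rw [Finset.mul_sum]
          apply Finset.sum_congr rfl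
          intro j _
          rw [Finset.mul_sum]
      _ ≤ _ := mul_le_mul_of_nonneg_left hb (by positivity)
  have hfirst : ∑ j, ∑ x, ‖φ j x - ((e j : ℂ) - pt E η) * ∑ y, G hop (fun _ => 0) (pt E η) x y * φ j y‖ ^ 2 ≤
      2 * η ^ 2 * ∑ x, ∑ y, ‖G hop V (pt E η) x y - G hop (fun _ => 0) (pt E η) x y‖ ^ 2 := by
    have h7 := hfam (fun x y => G hop V (pt E η) x y - G hop (fun _ => 0) (pt E η) x y)
    refine le_trans (le_of_eq ?_) h7
    apply Finset.sum_congr rfl
    intro j _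
    apply Finset.sum_congr rfl
    intro x _
    rw [hr j x]
  refine ⟨hfirst, ?_⟩
  intro i ε hε
  -- K φ_j = (e_j - z) K G₀ φ_j + K r_j
  have hK : ∀ j x, ∑ y, Km i ε x y * φ j y = ((e j : ℂ) - pt E η) * (∑ y, KG i ε (pt E η) x y * φ j y) +
      ∑ y, Km i ε x y * (φ j y - ((e j : ℂ) - pt E η) * ∑ w, G hop (fun _ => 0) (pt E η) y w * φ j w) := by
    intro j x
    have h8 : ∑ y, KG i ε (pt E η) x y * φ j y =
        ∑ y, Km i ε x y * ∑ w, G hop (fun _ => 0) (pt E η) y w * φ j w := by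
      have h9 := congrFun (Matrix.mulVec_mulVec (φ j) (Km i ε) (G hop (fun _ => 0) (pt E η))) x
      exact h9.symm
    rw [h8, Finset.mul_sum, ← Finset.sum_add_distrib]
    apply Finset.sum_congr rfl
    intro y _
    ring
  calc ∑ j, ∑ x, ‖∑ y, Km i ε x y * φ j y‖ ^ 2
      ≤ ∑ j, ∑ x, (2 * ‖((e j : ℂ) - pt E η) * (∑ y, KG i ε (pt E η) x y * φ j y)‖ ^ 2 +
        2 * ‖∑ y, Km i ε x y * (φ j y - ((e j : ℂ) - pt E η) *
          ∑ w, G hop (fun _ => 0) (pt E η) y w * φ j w)‖ ^ 2) := by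
        apply Finset.sum_le_sum
        intro j _
        apply Finset.sum_le_sum
        intro x _
        rw [hK j x]
        exact norm_add_sq_le _ _
    _ = 2 * (∑ j, ∑ x, ‖((e j : ℂ) - pt E η) * (∑ y, KG i ε (pt E η) x y * φ j y)‖ ^ 2) +
        2 * ∑ j, ∑ x, ‖∑ y, Km i ε x y * (φ j y - ((e j : ℂ) - pt E η) *
          ∑ w, G hop (fun _ => 0) (pt E η) y w * φ j w)‖ ^ 2 := by
        rw [Finset.mul_sum, Finset.mul_sum, ← Finset.sum_add_distrib]
        apply Finset.sum_congr rfl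
        intro j _
        rw [Finset.mul_sum, Finset.mul_sum, ← Finset.sum_add_distrib]
    _ ≤ 2 * (2 * η ^ 2 * ∑ x, ∑ y, ‖KG i ε (pt E η) x y‖ ^ 2) +
        2 * ∑ j, ∑ x, ‖φ j x - ((e j : ℂ) - pt E η) *
          ∑ w, G hop (fun _ => 0) (pt E η) x w * φ j w‖ ^ 2 := by
        apply add_le_add
        · exact mul_le_mul_of_nonneg_left (hfam (KG i ε (pt E η))) (by norm_num)
        · apply mul_le_mul_of_nonneg_left _ (by norm_num)
          apply Finset.sum_le_sum
          intro j _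
          exact hKon d n i ε hε _
    _ ≤ _ := by
        nlinarith [hfirst]

end Pool.Agent.Q224.HB
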