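import Mathlib

set_option autoImplicit false

/-! # Project HB, job DEXT: extension of derivations in characteristic zero -/

namespace Pool.Agent.Q224.HB

open MvPolynomial

/-- lifting along formally smooth algebras -/
theorem lift_gen {R W B : Type} [CommRing R] [CommRing W] [CommRing B] [Algebra R W]
    [Algebra.FormallySmooth R W] (φ : R →+* B) (p : B →+* W) (hp : Function.Surjective p)
    (hn : IsNilpotent (RingHom.ker p)) (h : ∀ r, p (φ r) = algebraMap R W r) :
    ∃ ψ : W →+* B, (∀ x, p (ψ x) = x) ∧ ∀ r, ψ (algebraMap R W r) = φ r := by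
  let _ : Algebra R B := φ.toAlgebra
  let g : B →ₐ[R] W := { p with commutes' := fun r => h r }
  have hg : Function.Surjective g := hp
  have hg' : IsNilpotent (RingHom.ker (g : B →+* W)) := hn
  refine ⟨(Algebra.FormallySmooth.liftOfSurjective (AlgHom.id R W) g hg hg' : W →ₐ[R] B), fun x => ?_, fun r => ?_⟩
  · have := Algebra.FormallySmooth.liftOfSurjective_apply (AlgHom.id R W) g hg hg' x
    exact this
  · exact AlgHom.commutes _ r

theorem smooth_of_field (L W : Type) [Field L] [CharZero L] [Field W] [Algebra L W] :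
    Algebra.FormallySmooth L W := by
  obtain ⟨s, hs⟩ := exists_isTranscendenceBasis L W
  have h1 : Algebra.IsAlgebraic (IntermediateField.adjoin L (Set.range ((↑) : s → W))) W :=
    hs.isAlgebraic_field
  have h2 : Algebra.IsSeparable (IntermediateField.adjoin L (Set.range ((↑) : s → W))) W := inferInstance
  exact Algebra.FormallySmooth.of_algebraicIndependent_of_isSeparable hs.1

open scoped IntermediateField.algebraAdjoinAdjoin in
theorem smooth_adjoin (k W : Type) [Field k] [CharZero k] [Field W] [Algebra k W] (s : Set W) :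
    Algebra.FormallySmooth (Algebra.adjoin k s) W := by
  have : CharZero (IntermediateField.adjoin k s) := by
    refine charZero_of_injective_algebraMap (algebraMap k (IntermediateField.adjoin k s)).injective
  have h1 : Algebra.FormallySmooth (IntermediateField.adjoin k s) W := smooth_of_field _ _
  have h2 : Algebra.FormallySmooth (Algebra.adjoin k s) (IntermediateField.adjoin k s) :=
    .of_isLocalization (nonZeroDivisors _)
  exact .comp _ (IntermediateField.adjoin k s) _

theorem dext_core (ι k W : Type) [Fintype ι] [Field k] [CharZero k] [Field W] [Algebra k W]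
    (ξ w : ι → W)
    (hw : ∀ f : MvPolynomial ι k, aeval ξ f = 0 → ∑ t, aeval ξ (pderiv t f) * w t = 0) :
    ∃ D : Derivation k W W, ∀ t, D (ξ t) = w t := by
  classical
  have := smooth_adjoin k W (Set.range ξ)
  -- the map on polynomials
  let φ0 : MvPolynomial ι k →ₐ[k] TrivSqZeroExt W W :=
    aeval fun t => TrivSqZeroExt.inl (ξ t) + TrivSqZeroExt.inr (w t)
  have hfst : ∀ f, (φ0 f).fst = aeval ξ f := by
    intro f
    have : (TrivSqZeroExt.fstHom k W W).comp φ0 = aeval ξ := by
      ext t
      simp [φ0]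
    exact congrArg (fun F : MvPolynomial ι k →ₐ[k] W => F f) this
  have hsnd : ∀ f, (φ0 f).snd = ∑ t, aeval ξ (pderiv t f) * w t := by
    intro f
    induction f using MvPolynomial.induction_on with
    | C a => simp [φ0, TrivSqZeroExt.algebraMap_eq_inl']
    | add f g hf hg => 
      simp only [map_add, TrivSqZeroExt.snd_add, hf, hg, add_mul, Finset.sum_add_distrib]
    | mul_X f t hf =>
      rw [map_mul, TrivSqZeroExt.snd_mul, hf, hfst]
      have e1 : φ0 (X t) = TrivSqZeroExt.inl (ξ t) + TrivSqZeroExt.inr (w t) := by simp [φ0]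
      rw [e1]
      simp only [TrivSqZeroExt.snd_add, TrivSqZeroExt.snd_inl, TrivSqZeroExt.snd_inr,
        TrivSqZeroExt.fst_add, TrivSqZeroExt.fst_inl, TrivSqZeroExt.fst_inr, smul_eq_mul,
        zero_add, add_zero]
      have e2 : ∀ s, aeval ξ (pderiv s (f * X t)) * w s =
          aeval ξ (pderiv s f) * w s * ξ t + (if s = t then aeval ξ f * w t else 0) := by
        intro s
        rw [Derivation.leibniz, smul_eq_mul, smul_eq_mul, map_add, map_mul, map_mul, aeval_X]
        by_cases hst : s = t
        · subst hst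
          rw [pderiv_X_self, if_pos rfl, map_one]
          ring
        · rw [pderiv_X_of_ne (Ne.symm hst), if_neg hst, map_zero]
          ring
      rw [Finset.sum_congr rfl fun s _ => e2 s, Finset.sum_add_distrib, Finset.sum_ite_eq',
        if_pos (Finset.mem_univ t), op_smul_eq_mul, Finset.sum_mul]
      ring
  have hker : ∀ f, aeval ξ f = 0 → φ0 f = 0 := by
    intro f hf
    refine TrivSqZeroExt.ext ?_ ?_
    · rw [hfst, hf]; rfl
    · rw [hsnd, hw f hf]; rfl
  -- on the subalgebra
  have hex : ∀ a : Algebra.adjoin k (Set.range ξ), ∃ f : MvPolynomial ι k, aeval ξ f = (a : W) := by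
    intro a
    have h1 : (a : W) ∈ (aeval ξ : MvPolynomial ι k →ₐ[k] W).range := by
      rw [← Algebra.adjoin_range_eq_range_aeval]
      exact a.2
    exact h1
  choose F hF using hex
  have hval : ∀ (a : Algebra.adjoin k (Set.range ξ)) (f : MvPolynomial ι k), aeval ξ f = (a : W) →
      φ0 (F a) = φ0 f := by
    intro a f hf
    have h1 : aeval ξ (F a - f) = 0 := by rw [map_sub, hF, hf, sub_self]
    have h2 := hker _ h1
    rw [map_sub] at h2
    exact sub_eq_zero.1 h2
  let φ : Algebra.adjoin k (Set.range ξ) →+* TrivSqZeroExt W W :=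
    { toFun := fun a => φ0 (F a)
      map_one' := by
        show φ0 (F 1) = 1
        rw [hval 1 1 (by simp), map_one]
      map_mul' := fun a b => by
        show φ0 (F (a * b)) = φ0 (F a) * φ0 (F b)
        rw [hval (a * b) (F a * F b) (by rw [map_mul, hF, hF]; rfl), map_mul]
      map_zero' := by
        show φ0 (F 0) = 0
        rw [hval 0 0 (by simp), map_zero]
      map_add' := fun a b => by
        show φ0 (F (a + b)) = φ0 (F a) + φ0 (F b)
        rw [hval (a + b) (F a + F b) (by rw [map_add, hF, hF]; rfl), map_add] }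
  have hφ : ∀ a, φ a = φ0 (F a) := fun a => rfl
  obtain ⟨ψ, hψ1, hψ2⟩ := lift_gen (R := Algebra.adjoin k (Set.range ξ)) (W := W)
    (B := TrivSqZeroExt W W) φ (TrivSqZeroExt.fstHom W W W).toRingHom
    (fun x => ⟨TrivSqZeroExt.inl x, TrivSqZeroExt.fst_inl W x⟩)
    (by
      refine ⟨2, ?_⟩
      rw [pow_two, Ideal.zero_eq_bot, eq_bot_iff, Ideal.mul_le]
      intro a ha b hb
      have ha' : a.fst = 0 := ha
      have hb' : b.fst = 0 := hb
      rw [Ideal.mem_bot]
      refine TrivSqZeroExt.ext ?_ ?_
      · rw [TrivSqZeroExt.fst_mul, ha', zero_mul]; rfl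
      · rw [TrivSqZeroExt.snd_mul, ha', hb']; simp)
    (fun r => by
      show (φ r).fst = _
      rw [hφ, hfst, hF]
      rfl)
  have hfψ : ∀ x, (ψ x).fst = x := hψ1
  have hc : ∀ c : k, ψ (algebraMap k W c) = TrivSqZeroExt.inl (algebraMap k W c) := by
    intro c
    have h1 := hψ2 (algebraMap k (Algebra.adjoin k (Set.range ξ)) c)
    have h2 : algebraMap (Algebra.adjoin k (Set.range ξ)) W (algebraMap k (Algebra.adjoin k (Set.range ξ)) c) =
        algebraMap k W c := rfl
    rw [h2] at h1
    rw [h1, hφ, hval _ (C c) (by rw [aeval_C]; rfl)]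
    simp [φ0, TrivSqZeroExt.algebraMap_eq_inl']
  refine ⟨Derivation.mk' { toFun := fun x => (ψ x).snd, map_add' := ?_, map_smul' := ?_ } ?_, fun t => ?_⟩
  · intro x y
    rw [map_add, TrivSqZeroExt.snd_add]
  · intro c x
    rw [Algebra.smul_def, map_mul, TrivSqZeroExt.snd_mul, hc]
    simp [Algebra.smul_def]
  · intro x y
    show (ψ (x * y)).snd = x • (ψ y).snd + y • (ψ x).snd
    rw [map_mul, TrivSqZeroExt.snd_mul, hfψ, hfψ, op_smul_eq_mul, smul_eq_mul,
      smul_eq_mul, mul_comm (ψ x).snd]
  · show (ψ (ξ t)).snd = w t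
    have h1 := hψ2 ⟨ξ t, Algebra.subset_adjoin (Set.mem_range_self t)⟩
    have h2 : algebraMap (Algebra.adjoin k (Set.range ξ)) W ⟨ξ t, Algebra.subset_adjoin (Set.mem_range_self t)⟩ =
        ξ t := rfl
    rw [h2] at h1
    rw [h1, hφ, hval _ (X t) (by rw [aeval_X])]
    simp [φ0]

end Pool.Agent.Q224.HB
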