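import Pool.Agent.Helper165.P1.Pui

set_option autoImplicit false

/-! # Hahn series with rational exponents: the derivation `-w² d/dw`, orders, constant terms -/

namespace Pool.Agent.Q224.HB

open Pool.Agent.Helper165.P1

section

variable {W : Type} [Field W]

/-- all coefficients below `c` vanish -/
def Low (c : ℚ) (z : HQ W) : Prop := ∀ q < c, z.coeff q = 0

/-- all coefficients above `0` vanish -/
def Neg (z : HQ W) : Prop := ∀ q, 0 < q → z.coeff q = 0

theorem low_mul {c d : ℚ} {x y : HQ W} (hx : Low c x) (hy : Low d y) : Low (c + d) (x * y) := by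
  intro q hq
  rw [HahnSeries.coeff_mul]
  refine Finset.sum_eq_zero fun ij hij => ?_
  have h := (Finset.mem_antidiagonal.1 hij)
  by_cases h1 : ij.1 < c
  · rw [hx _ h1, zero_mul]
  · have h2 : ij.2 < d := by
      have h3 : ij.1 + ij.2 = q := h.2.2
      rw [not_lt] at h1
      linarith
    rw [hy _ h2, mul_zero]

theorem low_mono {c d : ℚ} {x : HQ W} (h : d ≤ c) (hx : Low c x) : Low d x :=
  fun q hq => hx q (lt_of_lt_of_le hq h)

theorem low_one : Low 0 (1 : HQ W) := by
  intro q hq
  rw [HahnSeries.coeff_one, if_neg hq.ne]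

theorem exists_low (x : HQ W) : ∃ c : ℚ, Low c x :=
  ⟨x.order, fun q hq => HahnSeries.coeff_eq_zero_of_lt_order hq⟩

theorem low_neg {c : ℚ} {x : HQ W} (h : Low c x) : Low c (-x) := by
  intro q hq
  rw [HahnSeries.coeff_neg, h q hq, neg_zero]

/-- the product of a nonempty multiset of series of positive order has no constant term -/
theorem prod_low {c : ℚ} (hc : 0 < c) (s : Multiset (HQ W)) (h : ∀ z ∈ s, Low c z) : Low 0 s.prod := by
  induction s using Multiset.induction_on with
  | empty => rw [Multiset.prod_zero]; exact low_one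
  | cons a t ih =>
    rw [Multiset.prod_cons]
    have h1 := low_mul (h a (Multiset.mem_cons_self a t)) (ih fun z hz => h z (Multiset.mem_cons_of_mem hz))
    exact low_mono (by linarith) h1

theorem prod_low' {c : ℚ} (hc : 0 < c) (s : Multiset (HQ W)) (h : ∀ z ∈ s, Low c z) (hs : s ≠ 0) :
    Low c s.prod := by
  obtain ⟨a, ha⟩ := Multiset.exists_mem_of_ne_zero hs
  obtain ⟨t, rfl⟩ := Multiset.exists_cons_of_mem ha
  rw [Multiset.prod_cons]
  have h1 := low_mul (h a ha) (prod_low hc t fun z hz => h z (Multiset.mem_cons_of_mem hz))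
  exact low_mono (by linarith) h1

/-- multiplicativity of the constant term for series without positive exponents -/
theorem neg_mul' {x y : HQ W} (hx : Neg x) (hy : Neg y) :
    Neg (x * y) ∧ (x * y).coeff 0 = x.coeff 0 * y.coeff 0 := by
  constructor
  · intro q hq
    rw [HahnSeries.coeff_mul]
    refine Finset.sum_eq_zero fun ij hij => ?_
    have h3 : ij.1 + ij.2 = q := (Finset.mem_antidiagonal.1 hij).2.2
    by_cases h1 : 0 < ij.1
    · rw [hx _ h1, zero_mul]
    · rw [hy _ (by rw [not_lt] at h1; linarith), mul_zero]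
  · rw [HahnSeries.coeff_mul]
    by_cases h0 : x.coeff 0 * y.coeff 0 = 0
    · rw [h0]
      refine Finset.sum_eq_zero fun ij hij => ?_
      have h3 : ij.1 + ij.2 = 0 := (Finset.mem_antidiagonal.1 hij).2.2
      by_cases h1 : 0 < ij.1
      · rw [hx _ h1, zero_mul]
      · by_cases h2 : 0 < ij.2
        · rw [hy _ h2, mul_zero]
        · have e1 : ij.1 = 0 := by linarith
          have e2 : ij.2 = 0 := by linarith
          rw [e1, e2, h0]
    · rw [Finset.sum_eq_single (0, 0)]
      · intro ij hij hne
        have h3 : ij.1 + ij.2 = 0 := (Finset.mem_antidiagonal.1 hij).2.2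
        by_cases h1 : 0 < ij.1
        · rw [hx _ h1, zero_mul]
        · by_cases h2 : 0 < ij.2
          · rw [hy _ h2, mul_zero]
          · exact absurd (Prod.ext (by linarith) (by linarith)) hne
      · intro hn
        exfalso
        apply hn
        rw [Finset.mem_antidiagonal]
        exact ⟨left_ne_zero_of_mul h0, right_ne_zero_of_mul h0, add_zero 0⟩

variable [CharZero W]

/-- multiply the coefficient at `q` by `q` -/
noncomputable def th : HQ W →+ HQ W where
  toFun z := ⟨fun q => (q : W) * z.coeff q, z.isPWO_support.mono fun q hq => by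
    intro h0
    exact hq (by show (q : W) * z.coeff q = 0; rw [h0, mul_zero])⟩
  map_zero' := by
    ext q
    show (q : W) * (0 : HQ W).coeff q = (0 : HQ W).coeff q
    rw [HahnSeries.coeff_zero, mul_zero]
  map_add' x y := by
    ext q
    show (q : W) * (x + y).coeff q = (q : W) * x.coeff q + (q : W) * y.coeff q
    rw [HahnSeries.coeff_add, mul_add]

theorem th_coeff (z : HQ W) (q : ℚ) : (th z).coeff q = (q : W) * z.coeff q := rfl

theorem th_supp (z : HQ W) : (th z).support ⊆ z.support := by
  intro q hq h0
  exact hq (by show (th z).coeff q = 0; rw [th_coeff, h0, mul_zero])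

theorem th_mul (x y : HQ W) : th (x * y) = x * th y + y * th x := by
  ext q
  rw [HahnSeries.coeff_add, th_coeff, mul_comm y (th x), HahnSeries.coeff_mul,
    HahnSeries.coeff_mul_left' x.isPWO_support (th_supp x),
    HahnSeries.coeff_mul_right' y.isPWO_support (th_supp y), Finset.mul_sum, ← Finset.sum_add_distrib]
  refine Finset.sum_congr rfl fun ij hij => ?_
  have h3 : ij.1 + ij.2 = q := (Finset.mem_antidiagonal.1 hij).2.2
  rw [th_coeff, th_coeff, ← h3]
  push_cast
  ring

/-- the derivation `-w² d/dw` -/
noncomputable def Th : HQ W →+ HQ W where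
  toFun z := -(HahnSeries.single (1 : ℚ) (1 : W) * th z)
  map_zero' := by rw [map_zero, mul_zero, neg_zero]
  map_add' x y := by rw [map_add, mul_add, neg_add]

theorem Th_apply (z : HQ W) : Th z = -(HahnSeries.single (1 : ℚ) (1 : W) * th z) := rfl

theorem Th_mul (x y : HQ W) : Th (x * y) = x * Th y + y * Th x := by
  rw [Th_apply, Th_apply, Th_apply, th_mul]
  ring

theorem Th_C (a : W) : Th (HahnSeries.C a) = 0 := by
  have : th (HahnSeries.C a : HQ W) = 0 := by
    ext q
    rw [th_coeff, HahnSeries.coeff_zero, HahnSeries.C_apply]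
    by_cases h : q = 0
    · rw [h]; simp
    · rw [HahnSeries.coeff_single_of_ne h, mul_zero]
  rw [Th_apply, this, mul_zero, neg_zero]

theorem Th_w : Th (HahnSeries.single (-1 : ℚ) (1 : W)) = 1 := by
  have : th (HahnSeries.single (-1 : ℚ) (1 : W)) = -HahnSeries.single (-1 : ℚ) (1 : W) := by
    ext q
    rw [th_coeff, HahnSeries.coeff_neg]
    by_cases h : q = -1
    · rw [h]; simp
    · rw [HahnSeries.coeff_single_of_ne h, mul_zero, neg_zero]
  rw [Th_apply, this, mul_neg, neg_neg, HahnSeries.single_mul_single]
  simp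

theorem Th_low {c : ℚ} {z : HQ W} (h : Low c z) : Low (c + 1) (Th z) := by
  intro q hq
  rw [Th_apply, HahnSeries.coeff_neg, HahnSeries.coeff_single_mul, th_coeff, h (q - 1) (by linarith),
    mul_zero, mul_zero, neg_zero]

end

end Pool.Agent.Q224.HB
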