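import Pool.Agent.Q224.HB.Hahn
import Pool.Agent.Q224.HB.DextCore

set_option autoImplicit false

/-! # Local nilpotency of the derivations `∂/∂x_s` on integral elements -/

namespace Pool.Agent.Q224.HB

open Pool.Agent.Helper165.P1
open MvPolynomial (aeval C X)

/-- a derivation over a ring homomorphism which kills `k(x)` kills everything algebraic over it -/
theorem der_zero {ι k κ A : Type} [Field k] [CharZero k] [Field κ] [Algebra k κ] [CommRing A]
    (x : ι → κ) (halg : ∀ r : κ, IsAlgebraic (IntermediateField.adjoin k (Set.range x)) r) (ψ : κ →+* A)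
    (δ : κ →+ A) (hmul : ∀ a b, δ (a * b) = ψ a * δ b + ψ b * δ a) (hk : ∀ c : k, δ (algebraMap k κ c) = 0)
    (hx : ∀ t, δ (x t) = 0) (r : κ) : δ r = 0 := by
  have hinv : ∀ a : κ, δ a = 0 → δ a⁻¹ = 0 := by
    intro a ha
    by_cases h0 : a = 0
    · rw [h0, inv_zero, map_zero]
    · have h1 : δ 1 = 0 := by
        have := hk 1
        rwa [map_one] at this
      have h2 := hmul a a⁻¹
      rw [mul_inv_cancel₀ h0, h1, ha, mul_zero, add_zero] at h2
      have h3 : ψ a⁻¹ * (ψ a * δ a⁻¹) = 0 := by rw [← h2, mul_zero]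
      rwa [← mul_assoc, ← map_mul, inv_mul_cancel₀ h0, map_one, one_mul] at h3
  have hK : ∀ a ∈ IntermediateField.adjoin k (Set.range x), δ a = 0 := by
    intro a ha
    induction ha using IntermediateField.adjoin_induction with
    | mem a ha =>
      obtain ⟨t, rfl⟩ := ha
      exact hx t
    | algebraMap c => exact hk c
    | add a b _ _ h1 h2 => rw [map_add, h1, h2, add_zero]
    | inv a _ h1 => exact hinv a h1
    | mul a b _ _ h1 h2 => rw [hmul, h1, h2, mul_zero, mul_zero, add_zero]
  have hpow : ∀ n : ℕ, δ (r ^ n) = ψ (n * r ^ (n - 1)) * δ r := by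
    intro n
    induction n with
    | zero =>
      have := hk 1
      rw [map_one] at this
      simp [this]
    | succ n ih =>
      rw [pow_succ, hmul, ih, Nat.add_sub_cancel]
      rcases Nat.eq_zero_or_pos n with h0 | h0
      · subst h0
        simp
      · obtain ⟨m, rfl⟩ : ∃ m, n = m + 1 := ⟨n - 1, by omega⟩
        rw [Nat.add_sub_cancel]
        push_cast
        simp only [map_mul, map_add, map_pow, map_natCast, map_one]
        ring
  have hpol : ∀ f : Polynomial (IntermediateField.adjoin k (Set.range x)),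
      δ (Polynomial.aeval r f) = ψ (Polynomial.aeval r (Polynomial.derivative f)) * δ r := by
    intro f
    induction f using Polynomial.induction_on with
    | C a =>
      rw [Polynomial.aeval_C, Polynomial.derivative_C, map_zero, map_zero, zero_mul]
      exact hK _ a.2
    | add f g hf hg => rw [map_add, map_add, hf, hg, map_add, map_add, map_add, add_mul]
    | monomial n a _ =>
      have e1 : Polynomial.aeval r (Polynomial.C a * Polynomial.X ^ (n + 1)) = (a : κ) * r ^ (n + 1) := by
        simp only [map_mul, map_pow, Polynomial.aeval_X, Polynomial.aeval_C]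
        rfl
      have e2 : Polynomial.aeval r (Polynomial.derivative (Polynomial.C a * Polynomial.X ^ (n + 1))) =
          (a : κ) * (((n + 1 : ℕ) : κ) * r ^ n) := by
        rw [Polynomial.derivative_C_mul, Polynomial.derivative_X_pow, Nat.add_sub_cancel]
        simp only [map_mul, map_pow, Polynomial.aeval_X, Polynomial.aeval_C, map_natCast]
        rfl
      rw [e1, hmul, hpow, hK _ a.2, mul_zero, add_zero, e2, map_mul ψ (a : κ), Nat.add_sub_cancel]
      ring
  have : CharZero (IntermediateField.adjoin k (Set.range x)) :=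
    charZero_of_injective_algebraMap (algebraMap k (IntermediateField.adjoin k (Set.range x))).injective
  obtain ⟨f, hf⟩ : ∃ f, f = minpoly (IntermediateField.adjoin k (Set.range x)) r := ⟨_, rfl⟩
  have hr := (halg r).isIntegral
  have h1 := hpol f
  have h2 : Polynomial.aeval r f = 0 := by rw [hf]; exact minpoly.aeval _ _
  have h3 : Polynomial.aeval r (Polynomial.derivative f) ≠ 0 := by
    rw [hf]
    exact (minpoly.irreducible hr).separable.aeval_derivative_ne_zero (minpoly.aeval _ _)
  rw [h2, map_zero] at h1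
  have h4 : ψ (Polynomial.aeval r (Polynomial.derivative f))⁻¹ *
      (ψ (Polynomial.aeval r (Polynomial.derivative f)) * δ r) = 0 := by rw [← h1, mul_zero]
  rwa [← mul_assoc, ← map_mul, inv_mul_cancel₀ h3, map_one, one_mul] at h4

section

variable (ι k : Type) [Field k] [CharZero k]

/-- the coefficient field -/
abbrev Wf : Type := AlgebraicClosure (FractionRing (MvPolynomial ι k))

instance : CharZero (Wf ι k) := by
  have h1 : Function.Injective (algebraMap k (FractionRing (MvPolynomial ι k))) :=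
    (algebraMap k (FractionRing (MvPolynomial ι k))).injective
  have : CharZero (FractionRing (MvPolynomial ι k)) := charZero_of_injective_algebraMap h1
  exact charZero_of_injective_algebraMap
    (algebraMap (FractionRing (MvPolynomial ι k)) (Wf ι k)).injective

/-- polynomials in the coefficient field -/
noncomputable def inc : MvPolynomial ι k →+* Wf ι k :=
  (algebraMap (FractionRing (MvPolynomial ι k)) (Wf ι k)).comp
    (algebraMap (MvPolynomial ι k) (FractionRing (MvPolynomial ι k)))

theorem inc_inj : Function.Injective (inc ι k) :=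
  (algebraMap (FractionRing (MvPolynomial ι k)) (Wf ι k)).injective.comp
    (IsFractionRing.injective (MvPolynomial ι k) (FractionRing (MvPolynomial ι k)))

variable {ι k}

/-- constants and the inverse of the variable as Puiseux series -/
noncomputable def cP (a : Wf ι k) : Pui (Wf ι k) := eP 1 one_pos (HahnSeries.C a)

noncomputable def wP : Pui (Wf ι k) := eP 1 one_pos (HahnSeries.single (-1 : ℤ) (1 : Wf ι k))

theorem eP_single (n : ℤ) (a : Wf ι k) :
    ((eP 1 one_pos (HahnSeries.single n a) : Pui (Wf ι k)) : HQ (Wf ι k)) = HahnSeries.single (n : ℚ) a := by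
  show eHom 1 one_pos (HahnSeries.single n a) = _
  unfold eHom
  rw [HahnSeries.embDomainRingHom_apply, HahnSeries.embDomain_single]
  have h1 : divHom 1 n = (n : ℚ) := by
    show (n : ℚ) / ((1 : ℕ) : ℚ) = n
    simp
  show HahnSeries.single (divHom 1 n) a = _
  rw [h1]

theorem cP_coe (a : Wf ι k) : ((cP a : Pui (Wf ι k)) : HQ (Wf ι k)) = HahnSeries.C a := by
  unfold cP
  rw [HahnSeries.C_apply, eP_single, HahnSeries.C_apply]
  simp

theorem wP_coe : ((wP : Pui (Wf ι k)) : HQ (Wf ι k)) = HahnSeries.single (-1 : ℚ) (1 : Wf ι k) := by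
  unfold wP
  rw [eP_single]
  simp

variable [DecidableEq ι]

/-- polynomials as polynomials in `w⁻¹` -/
noncomputable def sg (s : ι) : MvPolynomial ι k →+* Pui (Wf ι k) :=
  MvPolynomial.eval₂Hom (((eP 1 one_pos).comp HahnSeries.C).comp ((inc ι k).comp MvPolynomial.C))
    fun t => cP (inc ι k (X t)) + if s = t then wP else 0

theorem sg_X (s t : ι) : sg (k := k) s (X t) = cP (inc ι k (X t)) + if s = t then wP else 0 := by
  unfold sg
  simp

theorem sg_C (s : ι) (c : k) : sg s (C c) = cP (inc ι k (C c)) := by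
  unfold sg
  simp [cP]

theorem sg_coeff (s : ι) (p : MvPolynomial ι k) :
    Neg (sg s p : HQ (Wf ι k)) ∧ (sg s p : HQ (Wf ι k)).coeff 0 = inc ι k p := by
  have hC : ∀ a : Wf ι k, Neg (HahnSeries.C a : HQ (Wf ι k)) ∧ (HahnSeries.C a : HQ (Wf ι k)).coeff 0 = a := by
    intro a
    rw [HahnSeries.C_apply]
    exact ⟨fun q hq => HahnSeries.coeff_single_of_ne hq.ne', HahnSeries.coeff_single_same _ _⟩
  induction p using MvPolynomial.induction_on with
  | C c =>
    rw [sg_C, cP_coe]
    exact hC _
  | add p q hp hq =>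
    rw [map_add, map_add]
    refine ⟨fun r hr => ?_, ?_⟩
    · show (((sg s p : Pui (Wf ι k)) : HQ (Wf ι k)) + ((sg s q : Pui (Wf ι k)) : HQ (Wf ι k))).coeff r = 0
      rw [HahnSeries.coeff_add, hp.1 r hr, hq.1 r hr, add_zero]
    · show (((sg s p : Pui (Wf ι k)) : HQ (Wf ι k)) + ((sg s q : Pui (Wf ι k)) : HQ (Wf ι k))).coeff 0 = _
      rw [HahnSeries.coeff_add, hp.2, hq.2]
  | mul_X p t hp =>
    have hX : Neg ((sg s (X t) : Pui (Wf ι k)) : HQ (Wf ι k)) ∧
        ((sg s (X t) : Pui (Wf ι k)) : HQ (Wf ι k)).coeff 0 = inc ι k (X t) := by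
      have e1 : ((sg s (X t) : Pui (Wf ι k)) : HQ (Wf ι k)) = HahnSeries.C (inc ι k (X t)) +
          if s = t then HahnSeries.single (-1 : ℚ) (1 : Wf ι k) else 0 := by
        rw [sg_X]
        by_cases h : s = t
        · rw [if_pos h, if_pos h]
          show ((cP (inc ι k (X t)) : Pui (Wf ι k)) : HQ (Wf ι k)) + ((wP : Pui (Wf ι k)) : HQ (Wf ι k)) = _
          rw [cP_coe, wP_coe]
        · rw [if_neg h, if_neg h, add_zero, add_zero, cP_coe]
      rw [e1]
      by_cases h : s = t
      · rw [if_pos h]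
        refine ⟨fun r hr => ?_, ?_⟩
        · rw [HahnSeries.coeff_add, (hC _).1 r hr, HahnSeries.coeff_single_of_ne (by linarith), add_zero]
        · rw [HahnSeries.coeff_add, (hC _).2, HahnSeries.coeff_single_of_ne (by norm_num), add_zero]
      · rw [if_neg h, add_zero]
        exact hC _
    rw [map_mul, map_mul]
    have := neg_mul' hp.1 hX.1
    refine ⟨this.1, ?_⟩
    show (((sg s p : Pui (Wf ι k)) : HQ (Wf ι k)) * ((sg s (X t) : Pui (Wf ι k)) : HQ (Wf ι k))).coeff 0 = _
    rw [this.2, hp.2, hX.2]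

theorem sg_inj (s : ι) : Function.Injective (sg (k := k) s) := by
  rw [injective_iff_map_eq_zero]
  intro p hp
  apply inc_inj ι k
  rw [map_zero, ← (sg_coeff s p).2, hp]
  rfl

/-- the main lemma: local nilpotency -/
theorem nilp {κ : Type} [Field κ] [Algebra k κ] (x : ι → κ) (hx : AlgebraicIndependent k x)
    (halg : ∀ r : κ, IsAlgebraic (IntermediateField.adjoin k (Set.range x)) r) (s : ι)
    (D : Derivation k κ κ) (hD : ∀ t, D (x t) = if s = t then 1 else 0)
    (hint : ∀ r : κ, IsIntegral (Algebra.adjoin k (Set.range x)) r →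
      IsIntegral (Algebra.adjoin k (Set.range x)) (D r)) (r : κ)
    (hr : IsIntegral (Algebra.adjoin k (Set.range x)) r) : ∃ m : ℕ, D^[m] r = 0 := by
  obtain ⟨K0, hK0⟩ : ∃ K0, K0 = IntermediateField.adjoin k (Set.range x) := ⟨_, rfl⟩
  -- the embedding of `k(x)`
  let e := hx.aevalEquivField
  let σF : FractionRing (MvPolynomial ι k) →+* Pui (Wf ι k) := IsFractionRing.lift (sg_inj (k := k) s)
  let σK : IntermediateField.adjoin k (Set.range x) →+* Pui (Wf ι k) := σF.comp (e.symm : _ →+* _)
  have hσ : ∀ p : MvPolynomial ι k, σK (e (algebraMap _ _ p)) = sg s p := by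
    intro p
    show σF (e.symm (e (algebraMap _ _ p))) = _
    rw [AlgEquiv.symm_apply_apply]
    exact IsFractionRing.lift_algebraMap _ _
  let _ : Algebra (IntermediateField.adjoin k (Set.range x)) (Pui (Wf ι k)) := σK.toAlgebra
  have : Algebra.IsAlgebraic (IntermediateField.adjoin k (Set.range x)) κ := ⟨halg⟩
  have he : ∀ p : MvPolynomial ι k, ((e (algebraMap _ _ p) : IntermediateField.adjoin k (Set.range x)) : κ) =
      aeval x p := fun p => hx.aevalEquivField_algebraMap_apply_coe p
  have hψp : ∀ (ψ : κ →ₐ[IntermediateField.adjoin k (Set.range x)] Pui (Wf ι k)) (p : MvPolynomial ι k),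
      ψ (aeval x p) = sg s p := by
    intro ψ p
    rw [← he, ← hσ]
    exact ψ.commutes (e (algebraMap _ _ p))
  -- the derivation
  have hder : ∀ (ψ : κ →ₐ[IntermediateField.adjoin k (Set.range x)] Pui (Wf ι k)) (y : κ),
      ((ψ (D y) : Pui (Wf ι k)) : HQ (Wf ι k)) = Th (ψ y : HQ (Wf ι k)) := by
    intro ψ y
    let Ψ : κ →+* HQ (Wf ι k) := (Pui (Wf ι k)).subtype.comp ψ.toRingHom
    have hΨ : ∀ y, Ψ y = ((ψ y : Pui (Wf ι k)) : HQ (Wf ι k)) := fun _ => rfl
    let δ : κ →+ HQ (Wf ι k) := (Ψ.toAddMonoidHom.comp D.toLinearMap.toAddMonoidHom) - Th.comp Ψ.toAddMonoidHom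
    have hδ : ∀ y, δ y = Ψ (D y) - Th (Ψ y) := fun _ => rfl
    have h0 := der_zero x halg Ψ δ (fun a b => ?_) (fun c => ?_) (fun t => ?_) y
    · rw [hδ, sub_eq_zero] at h0
      exact h0
    · rw [hδ, hδ, hδ, D.leibniz, smul_eq_mul, smul_eq_mul, map_add, map_mul, map_mul, map_mul, Th_mul]
      ring
    · have e1 : algebraMap k κ c = aeval x (C c : MvPolynomial ι k) := by simp
      rw [hδ, D.map_algebraMap, map_zero, e1, hΨ, hψp, sg_C, cP_coe, Th_C, sub_zero]
    · have e1 : x t = aeval x (X t : MvPolynomial ι k) := by simp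
      rw [hδ, hD, hΨ, hΨ (x t), e1, hψp, sg_X]
      by_cases h : s = t
      · rw [if_pos h, if_pos h, map_one]
        show ((1 : Pui (Wf ι k)) : HQ (Wf ι k)) - Th (((cP (inc ι k (X t)) : Pui (Wf ι k)) : HQ (Wf ι k)) +
          ((wP : Pui (Wf ι k)) : HQ (Wf ι k))) = 0
        rw [cP_coe, wP_coe, map_add, Th_C, Th_w, zero_add]
        exact sub_self _
      · rw [if_neg h, if_neg h, map_zero, add_zero, cP_coe, Th_C, sub_zero]
        rfl
  -- iterates
  have hlow : ∀ (m : ℕ) (c : ℚ), (∀ ψ : κ →ₐ[IntermediateField.adjoin k (Set.range x)] Pui (Wf ι k),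
      Low c ((ψ r : Pui (Wf ι k)) : HQ (Wf ι k))) →
      ∀ ψ : κ →ₐ[IntermediateField.adjoin k (Set.range x)] Pui (Wf ι k),
        Low (c + m) ((ψ (D^[m] r) : Pui (Wf ι k)) : HQ (Wf ι k)) := by
    intro m c h
    induction m with
    | zero =>
      intro ψ
      simpa using h ψ
    | succ m ih =>
      intro ψ
      rw [Function.iterate_succ_apply', hder]
      have := Th_low (ih ψ)
      push_cast
      rw [← add_assoc]
      exact this
  have hintm : ∀ m : ℕ, IsIntegral (Algebra.adjoin k (Set.range x)) (D^[m] r) := by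
    intro m
    induction m with
    | zero => exact hr
    | succ m ih =>
      rw [Function.iterate_succ_apply']
      exact hint _ ih
  -- a lower bound for all conjugates
  obtain ⟨c, hc⟩ : ∃ c : ℚ, ∀ ψ : κ →ₐ[IntermediateField.adjoin k (Set.range x)] Pui (Wf ι k),
      Low c ((ψ r : Pui (Wf ι k)) : HQ (Wf ι k)) := by
    have hfin : (Set.range fun ψ : κ →ₐ[IntermediateField.adjoin k (Set.range x)] Pui (Wf ι k) => ψ r).Finite := by
      rw [Algebra.IsAlgebraic.range_eval_eq_rootSet_minpoly]
      exact Polynomial.rootSet_finite _ _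
    have hb : ∀ S : Set (Pui (Wf ι k)), S.Finite → ∃ c : ℚ, ∀ z ∈ S, Low c (z : HQ (Wf ι k)) := by
      intro S hS
      induction S, hS using Set.Finite.induction_on with
      | empty => exact ⟨0, fun z hz => absurd hz (Set.notMem_empty z)⟩
      | @insert a T _ _ ih =>
        obtain ⟨c1, h1⟩ := ih
        obtain ⟨c2, h2⟩ := exists_low (a : HQ (Wf ι k))
        refine ⟨min c1 c2, fun z hz => ?_⟩
        rcases Set.mem_insert_iff.1 hz with rfl | hz
        · exact low_mono (min_le_right _ _) h2
        · exact low_mono (min_le_left _ _) (h1 z hz)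
    obtain ⟨c, hc⟩ := hb _ hfin
    exact ⟨c, fun ψ => hc _ ⟨ψ, rfl⟩⟩
  obtain ⟨m, hm⟩ := exists_nat_gt (-c)
  refine ⟨m, ?_⟩
  obtain ⟨y, hy⟩ : ∃ y, y = D^[m] r := ⟨_, rfl⟩
  have hyl : ∀ ψ : κ →ₐ[IntermediateField.adjoin k (Set.range x)] Pui (Wf ι k),
      Low (c + m) ((ψ y : Pui (Wf ι k)) : HQ (Wf ι k)) := by rw [hy]; exact hlow m c hc
  have hyi : IsIntegral (Algebra.adjoin k (Set.range x)) y := by rw [hy]; exact hintm m
  rw [← hy]
  have hcm : 0 < c + m := by linarith
  have hyK : IsIntegral (IntermediateField.adjoin k (Set.range x)) y := (halg y).isIntegral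
  -- the constant coefficient of the minimal polynomial is a polynomial
  obtain ⟨f, hf⟩ : ∃ f, f = minpoly (IntermediateField.adjoin k (Set.range x)) y := ⟨_, rfl⟩
  have hcf : ∃ p : MvPolynomial ι k, f.coeff 0 = e (algebraMap _ _ p) := by
    have : IsIntegrallyClosed (Algebra.adjoin k (Set.range x)) := by
      have : IsIntegrallyClosed (MvPolynomial ι k) := inferInstance
      exact IsIntegrallyClosed.of_equiv hx.aevalEquiv.toRingEquiv
    open scoped IntermediateField.algebraAdjoinAdjoin in
    have h1 := minpoly.isIntegrallyClosed_eq_field_fractions' (R := Algebra.adjoin k (Set.range x))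
      (IntermediateField.adjoin k (Set.range x)) hyi
    rw [hf, h1, Polynomial.coeff_map]
    have h2 : (((minpoly (Algebra.adjoin k (Set.range x)) y).coeff 0 : Algebra.adjoin k (Set.range x)) : κ) ∈
        (aeval x : MvPolynomial ι k →ₐ[k] κ).range := by
      rw [← Algebra.adjoin_range_eq_range_aeval]
      exact Subtype.property _
    obtain ⟨p, hp⟩ := h2
    refine ⟨p, Subtype.ext ?_⟩
    rw [he]
    exact hp.symm
  obtain ⟨p, hp⟩ := hcf
  by_contra hy0
  have hsp : (f.map σK).Splits := IsAlgClosed.splits _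
  have hmon : (f.map σK).Monic := by
    rw [hf]
    exact (minpoly.monic hyK).map _
  have hroot : ∀ z ∈ (f.map σK).roots, Low (c + m) ((z : Pui (Wf ι k)) : HQ (Wf ι k)) := by
    intro z hz
    have h1 : z ∈ (minpoly (IntermediateField.adjoin k (Set.range x)) y).rootSet (Pui (Wf ι k)) := by
      rw [Polynomial.mem_rootSet', ← hf]
      refine ⟨hmon.ne_zero, ?_⟩
      rw [Polynomial.aeval_def, ← Polynomial.eval_map]
      exact (Polynomial.mem_roots'.1 hz).2
    rw [← Algebra.IsAlgebraic.range_eval_eq_rootSet_minpoly] at h1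
    obtain ⟨ψ, hψ⟩ := h1
    rw [← hψ]
    exact hyl ψ
  have hdeg : (f.map σK).roots ≠ 0 := by
    intro h0
    have h1 := hsp.natDegree_eq_card_roots
    rw [h0, Multiset.card_zero, Polynomial.natDegree_map, hf] at h1
    exact absurd h1 (minpoly.natDegree_pos hyK).ne'
  have hprod := hsp.coeff_zero_eq_prod_roots_of_monic hmon
  have h2 : Low (c + m) (((f.map σK).roots.prod : Pui (Wf ι k)) : HQ (Wf ι k)) := by
    have h3 := prod_low' hcm ((f.map σK).roots.map fun z : Pui (Wf ι k) => (z : HQ (Wf ι k)))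
      (fun z hz => by
        obtain ⟨z', hz', rfl⟩ := Multiset.mem_map.1 hz
        exact hroot z' hz') (by simpa using hdeg)
    have h4 : ((f.map σK).roots.map fun z : Pui (Wf ι k) => (z : HQ (Wf ι k))).prod =
        (((f.map σK).roots.prod : Pui (Wf ι k)) : HQ (Wf ι k)) :=
      (map_multiset_prod (Pui (Wf ι k)).subtype (f.map σK).roots).symm
    rw [h4] at h3
    exact h3
  have h5 : (((f.map σK).coeff 0 : Pui (Wf ι k)) : HQ (Wf ι k)).coeff 0 = 0 := by
    rw [hprod]
    rcases Nat.even_or_odd (f.map σK).natDegree with h | h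
    · rw [h.neg_one_pow, one_mul]
      exact h2 0 hcm
    · rw [h.neg_one_pow, neg_one_mul]
      exact low_neg h2 0 hcm
  rw [Polynomial.coeff_map, hp, hσ, (sg_coeff s p).2] at h5
  have h6 : p = 0 := inc_inj ι k (by rw [h5, map_zero])
  rw [h6, map_zero, map_zero, hf] at hp
  exact hy0 ((minpoly.coeff_zero_eq_zero hyK).1 hp)

end

end Pool.Agent.Q224.HB
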