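import Pool.Agent.Q224.HB.Nil
import Pool.Agent.Q35.HB.Stm

set_option autoImplicit false

/-! # Project HB, jobs DEXT and SC -/

namespace Pool.Agent.Q224.HB

open Pool.Agent.Q35.HB

theorem dext : S_DEXT := by
  intro ι k W _ _ _ _ _ ξ w h
  exact dext_core ι k W ξ w h

theorem der_id {ι k κ : Type} [Field k] [CharZero k] [Field κ] [Algebra k κ]
    (x : ι → κ) (halg : ∀ r : κ, IsAlgebraic (IntermediateField.adjoin k (Set.range x)) r)
    (E : Derivation k κ κ) (hx : ∀ t, E (x t) = 0) (r : κ) : E r = 0 :=
  der_zero x halg (RingHom.id κ) E.toLinearMap.toAddMonoidHom (fun a b => E.leibniz a b)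
    (fun c => E.map_algebraMap c) hx r

theorem sum_apply {ι k κ : Type} [Fintype ι] [Field k] [Field κ] [Algebra k κ] (D : ι → Derivation k κ κ)
    (c : ι → κ) (r : κ) : (∑ s, c s • D s : Derivation k κ κ) r = ∑ s, c s * D s r := by
  classical
  have : ∀ T : Finset ι, (∑ s ∈ T, c s • D s : Derivation k κ κ) r = ∑ s ∈ T, c s * D s r := by
    intro T
    induction T using Finset.induction_on with
    | empty => simp
    | insert a T ha ih => rw [Finset.sum_insert ha, Finset.sum_insert ha, Derivation.add_apply, ih]; rfl
  exact this Finset.univ

theorem iter_pow {k κ : Type} [Field k] [Field κ] [Algebra k κ] (E : Derivation k κ κ) (y w : κ)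
    (hy : E y = 1) (hw : E w = 0) (N j : ℕ) (hj : j ≤ N) :
    E^[j] (y ^ N * w) = (N.descFactorial j : κ) * (y ^ (N - j) * w) := by
  induction j with
  | zero => simp
  | succ j ih =>
    rw [Function.iterate_succ_apply', ih (by omega)]
    have e1 : ((N.descFactorial j : ℕ) : κ) * (y ^ (N - j) * w) = (N.descFactorial j) • (y ^ (N - j) * w) := by
      rw [nsmul_eq_mul]
    rw [e1, map_nsmul, E.leibniz, hw, smul_zero, zero_add, E.leibniz_pow, hy, Nat.descFactorial_succ]
    rw [show N - (j + 1) = N - j - 1 by omega]
    simp only [smul_eq_mul, nsmul_eq_mul, Nat.cast_mul]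
    ring

theorem sc : S_SC := by
  intro ι k κ _ _ _ _ _ _ x hx halg hk D hD hint r
  have hcomm : ∀ s t, Function.Commute (D s) (D t) := by
    intro s t y
    have h0 := der_zero x halg (RingHom.id κ)
      (((D s).toLinearMap.comp (D t).toLinearMap - (D t).toLinearMap.comp (D s).toLinearMap).toAddMonoidHom)
      (fun a b => ?_) (fun c => ?_) (fun u => ?_) y
    · exact sub_eq_zero.1 h0
    · show D s (D t (a * b)) - D t (D s (a * b)) = a * (D s (D t b) - D t (D s b)) + b * (D s (D t a) - D t (D s a))
      simp only [Derivation.leibniz, map_add, smul_eq_mul]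
      ring
    · show D s (D t (algebraMap k κ c)) - D t (D s (algebraMap k κ c)) = 0
      rw [Derivation.map_algebraMap, Derivation.map_algebraMap, map_zero, map_zero, sub_zero]
    · show D s (D t (x u)) - D t (D s (x u)) = 0
      rw [hD, hD]
      have h1 : ∀ (v : ι) (P : Prop) [Decidable P], D v (if P then (1 : κ) else 0) = 0 := by
        intro v P _
        split_ifs
        · exact Derivation.map_one_eq_zero _
        · exact map_zero _
      rw [h1, h1, sub_zero]
  have hconst : ∀ r : κ, (∀ s, D s r = 0) → r ∈ Set.range (algebraMap k κ) := by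
    intro r hr
    by_cases hal : IsAlgebraic k r
    · exact hk r hal
    exfalso
    have hind : AlgebraicIndependent k (fun _ : Unit => r) := by
      rw [algebraicIndependent_unique_type_iff]
      exact hal
    obtain ⟨E, hE⟩ := dext_core Unit k κ (fun _ => r) (fun _ => 1) (fun f hf => by
      have : f = 0 := by
        apply (algebraicIndependent_iff.1 hind) f hf
      rw [this]
      simp)
    have h1 := der_id x halg (E - ∑ s, E (x s) • D s) (fun t => by
      rw [Derivation.sub_apply]
      rw [sum_apply]
      simp [hD]) r
    rw [Derivation.sub_apply] at h1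
    rw [sum_apply] at h1
    have h3 : E r = 1 := hE ()
    simp [hr, h3] at h1
  -- integration
  have key : ∀ (S : Finset ι) (r : κ), (∀ t ∉ S, D t r = 0) → (∀ t, ∃ N, (D t)^[N] r = 0) →
      r ∈ Algebra.adjoin k (Set.range x) := by
    intro S
    induction S using Finset.induction_on with
    | empty =>
      intro r h1 _
      obtain ⟨c, rfl⟩ := hconst r fun s => h1 s (Finset.notMem_empty s)
      exact Subalgebra.algebraMap_mem _ c
    | insert s S hs ih =>
      have inner : ∀ (N : ℕ) (r : κ), (∀ t ∉ insert s S, D t r = 0) → (∀ t, ∃ N, (D t)^[N] r = 0) →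
          (D s)^[N] r = 0 → r ∈ Algebra.adjoin k (Set.range x) := by
        intro N
        induction N with
        | zero =>
          intro r _ _ h
          have : r = 0 := h
          rw [this]
          exact Subalgebra.zero_mem _
        | succ N ihN =>
          intro r h1 h2 h3
          have hxs : D s (x s) = 1 := by rw [hD, if_pos rfl]
          have hxt : ∀ t, t ≠ s → D t (x s) = 0 := fun t ht => by rw [hD, if_neg ht]
          obtain ⟨w, hw⟩ : ∃ w, w = (D s)^[N] r := ⟨_, rfl⟩
          have hw0 : D s w = 0 := by
            rw [hw]
            rw [Function.iterate_succ_apply'] at h3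
            exact h3
          have hmv : ∀ (t : ι) (m : ℕ), (D t)^[m] w = (D s)^[N] ((D t)^[m] r) := by
            intro t m
            rw [hw]
            exact ((hcomm t s).iterate_iterate m N) r
          have hz : ∀ (t : ι) (m : ℕ), (D t)^[m] 0 = (0 : κ) := by
            intro t m
            induction m with
            | zero => rfl
            | succ m ih => rw [Function.iterate_succ_apply', ih, map_zero]
          have hwt : ∀ (t : ι) (m : ℕ), (D t)^[m] r = 0 → (D t)^[m] w = 0 := by
            intro t m h
            rw [hmv, h, hz]
          have hwP : w ∈ Algebra.adjoin k (Set.range x) := by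
            refine ih w (fun t ht => ?_) fun t => ?_
            · by_cases hts : t = s
              · rw [hts]; exact hw0
              · have := hwt t 1 (h1 t (by rw [Finset.mem_insert]; push Not; exact ⟨hts, ht⟩))
                exact this
            · obtain ⟨m, hm⟩ := h2 t
              exact ⟨m, hwt t m hm⟩
          obtain ⟨a, ha⟩ : ∃ a : k, a = ((N.factorial : ℕ) : k)⁻¹ := ⟨_, rfl⟩
          have hfac : ((N.factorial : ℕ) : k) ≠ 0 := by exact_mod_cast N.factorial_ne_zero
          have hiter : ∀ (t : ι) (m : ℕ) (y z : κ), (D t)^[m] (y - a • z) = (D t)^[m] y - a • (D t)^[m] z := by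
            intro t m y z
            induction m with
            | zero => rfl
            | succ m ih => rw [Function.iterate_succ_apply', ih, map_sub, Derivation.map_smul,
                Function.iterate_succ_apply', Function.iterate_succ_apply']
          have hmul : ∀ (t : ι) (m : ℕ), t ≠ s → (D t)^[m] (x s ^ N * w) = x s ^ N * (D t)^[m] w := by
            intro t m ht
            induction m with
            | zero => rfl
            | succ m ih =>
              rw [Function.iterate_succ_apply', ih, Derivation.leibniz, Derivation.leibniz_pow, hxt t ht,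
                Function.iterate_succ_apply']
              simp
          have hr' : r - a • (x s ^ N * w) ∈ Algebra.adjoin k (Set.range x) := by
            have hsN : (D s)^[N] (r - a • (x s ^ N * w)) = 0 := by
              rw [hiter, iter_pow (D s) (x s) w hxs hw0 N N le_rfl, Nat.sub_self, pow_zero, one_mul,
                Nat.descFactorial_self, ← hw, ha, Algebra.smul_def, ← mul_assoc]
              have : algebraMap k κ ((N.factorial : ℕ) : k)⁻¹ * ((N.factorial : ℕ) : κ) = 1 := by
                rw [show ((N.factorial : ℕ) : κ) = algebraMap k κ ((N.factorial : ℕ) : k) by simp, ← map_mul,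
                  inv_mul_cancel₀ hfac, map_one]
              rw [this, one_mul, sub_self]
            refine ihN _ (fun t ht => ?_) (fun t => ?_) hsN
            · have hts : t ≠ s := fun h => ht (by rw [h]; exact Finset.mem_insert_self s S)
              have e1 := hiter t 1 r (x s ^ N * w)
              rw [hmul t 1 hts] at e1
              have e2 : (D t)^[1] r = 0 := h1 t ht
              rw [hwt t 1 e2, e2, mul_zero, smul_zero, sub_zero] at e1
              exact e1
            · by_cases hts : t = s
              · rw [hts]; exact ⟨N, hsN⟩
              · obtain ⟨m, hm⟩ := h2 t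
                refine ⟨m, ?_⟩
                rw [hiter, hmul t m hts, hwt t m hm, hm, mul_zero, smul_zero, sub_zero]
          have hxP : x s ∈ Algebra.adjoin k (Set.range x) := Algebra.subset_adjoin (Set.mem_range_self s)
          have h5 : a • (x s ^ N * w) ∈ Algebra.adjoin k (Set.range x) :=
            Subalgebra.smul_mem _ (Subalgebra.mul_mem _ (Subalgebra.pow_mem _ hxP N) hwP) a
          have h6 := Subalgebra.add_mem _ hr' h5
          rwa [sub_add_cancel] at h6
      intro r h1 h2
      obtain ⟨N, hN⟩ := h2 s
      exact inner N r h1 h2 hN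
  -- integral elements are polynomials
  have hP : ∀ r : κ, IsIntegral (Algebra.adjoin k (Set.range x)) r → r ∈ Algebra.adjoin k (Set.range x) := by
    intro r hr
    refine key Finset.univ r (fun t ht => absurd (Finset.mem_univ t) ht) fun t => ?_
    exact nilp x hx halg t (D t) (fun u => hD t u) (fun y hy => hint y hy t) r hr
  have hle : Algebra.adjoin k (Set.range x) ≤ (IntermediateField.adjoin k (Set.range x)).toSubalgebra :=
    IntermediateField.algebra_adjoin_le_adjoin k _
  open scoped IntermediateField.algebraAdjoinAdjoin in
  have halgP : IsAlgebraic (Algebra.adjoin k (Set.range x)) r :=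
    (IsFractionRing.isAlgebraic_iff (Algebra.adjoin k (Set.range x)) (IntermediateField.adjoin k (Set.range x)) κ).2
      (halg r)
  obtain ⟨a, ha, hai⟩ := halgP.exists_integral_multiple
  have h1 := hle (hP _ hai)
  have ha' : (a : κ) ∈ IntermediateField.adjoin k (Set.range x) := hle a.2
  have ha0 : (a : κ) ≠ 0 := fun h => ha (Subtype.ext h)
  have h2 : r = (a : κ)⁻¹ * (a • r) := by
    rw [show a • r = (a : κ) * r from rfl, ← mul_assoc, inv_mul_cancel₀ ha0, one_mul]
  rw [h2]
  exact (IntermediateField.adjoin k (Set.range x)).mul_mem
    ((IntermediateField.adjoin k (Set.range x)).inv_mem ha') h1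

end Pool.Agent.Q224.HB
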